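import Mathlib
import Pool.Agent.Helper766.M.Main

set_option autoImplicit false

namespace Pool.Agent.Results.MP_74fe1c_mp.MagneticLiYau

/-- **Magnetic Berezin–Li–Yau inequality with the constant `(2/√3) L^cl` for all `γ ≥ 1`.**

For every dimension `n ≥ 1`, every open `Ω ⊆ ℝⁿ`, every measurable magnetic potential `A`
(in particular every `A ∈ L²_loc`), every `γ ≥ 1` and every `Λ > 0`,
`Tr(H_{Ω,A} - Λ)_-^γ ≤ (2/√3) L^cl_{γ,n} |Ω| Λ^{γ+n/2}`,
where the eigenvalues are given by the min-max principle over finite dimensional spaces of `C¹`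
functions with compact support in `Ω`, exactly as in the frozen statement `S09907`. -/
theorem result :
  ∀ (n : ℕ) (Ω : Set (Fin n → ℝ)) (A : (Fin n → ℝ) → (Fin n → ℝ)) (γ Λ : ℝ),
    1 ≤ n → IsOpen Ω → Measurable A → 1 ≤ γ → 0 < Λ →
    (∑' k : ℕ, (ENNReal.ofReal Λ -
        ⨅ (V : Submodule ℂ ((Fin n → ℝ) → ℂ))
          (_ : ∀ u ∈ V, ContDiff ℝ 1 u ∧ HasCompactSupport u ∧ tsupport u ⊆ Ω)
          (_ : Module.finrank ℂ V = k + 1),
          ⨆ (u : (Fin n → ℝ) → ℂ) (_ : u ∈ V) (_ : u ≠ 0),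
            (∫⁻ x, ∑ j : Fin n,
                (‖fderiv ℝ u x (Pi.single j 1) - Complex.I * ((A x j : ℝ) : ℂ) * u x‖₊ : ENNReal) ^ 2)
              / ∫⁻ x, (‖u x‖₊ : ENNReal) ^ 2) ^ γ)
    ≤ ENNReal.ofReal (2 / √3) * (ENNReal.ofReal (Real.Gamma (γ + 1) /
          ((4 * Real.pi) ^ ((n : ℝ) / 2) * Real.Gamma (γ + 1 + (n : ℝ) / 2)))
        * MeasureTheory.volume Ω * ENNReal.ofReal (Λ ^ (γ + (n : ℝ) / 2))) := by
  intro n Ω A γ Λ hn hΩ hA hγ hΛ
  have h := Helper766.M.magnetic_LT hn Ω A hA 0 (Ω.indicator fun _ => ENNReal.ofReal Λ)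
    (measurable_const.indicator hΩ.measurableSet) hγ
  have hexp : 0 < γ + (n : ℝ) / 2 := by positivity
  have h2 : ∫⁻ x, (Ω.indicator fun _ => ENNReal.ofReal Λ) x ^ (γ + (n : ℝ) / 2) =
      MeasureTheory.volume Ω * ENNReal.ofReal (Λ ^ (γ + (n : ℝ) / 2)) := by
    have h3 : (fun x => (Ω.indicator fun _ => ENNReal.ofReal Λ) x ^ (γ + (n : ℝ) / 2)) =
        Ω.indicator fun _ => ENNReal.ofReal (Λ ^ (γ + (n : ℝ) / 2)) := by
      funext x
      by_cases hx : x ∈ Ω
      · rw [Set.indicator_of_mem hx, Set.indicator_of_mem hx,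
          ENNReal.ofReal_rpow_of_nonneg hΛ.le hexp.le]
      · rw [Set.indicator_of_notMem hx, Set.indicator_of_notMem hx,
          ENNReal.zero_rpow_of_pos hexp]
    rw [h3, MeasureTheory.lintegral_indicator_const hΩ.measurableSet, mul_comm]
  have hL : 0 ≤ Helper766.M.Lcl γ n := by
    unfold Helper766.M.Lcl
    have := Real.Gamma_pos_of_pos (show 0 < γ + 1 by linarith)
    have := Real.Gamma_pos_of_pos (show 0 < γ + 1 + (n : ℝ) / 2 by positivity)
    positivity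
  rw [h2, ENNReal.ofReal_mul (by positivity)] at h
  refine (le_of_eq ?_).trans (h.trans (le_of_eq ?_))
  · refine tsum_congr fun k => ?_
    rw [← Helper766.M.dirichlet_link Ω hΩ A Λ hΛ k]
  · unfold Helper766.M.Lcl
    ring

end Pool.Agent.Results.MP_74fe1c_mp.MagneticLiYau
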